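import Pool.Agent.Work.MP_b4cb8e_al.Good

set_option autoImplicit false

open Pool.Agent.Work.MP_b4cb8e_al

namespace Pool.Agent.Work.MP_b4cb8e_al.Parked.Exponents

/-- The problem for every division ring, with exponents `b * g` where `b` runs over a small set
and every prime factor `l` of `g` has a factor of degree one or two of the `l`-th cyclotomic
polynomial over the centre. -/
theorem result (D : Type) [DivisionRing D]
    (K : Subfield D) (hK : K ≠ ⊤) (N : Subgroup Dˣ) (hN : N.IsSubnormal)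
    (B : Set ℕ) (hB : Cardinal.mk B < max Cardinal.aleph0 (Cardinal.mk (Subring.center D)))
    (hrad : ∀ x ∈ N, ∃ b ∈ B, ∃ g : ℕ, 1 ≤ b * g ∧ (x : D) ^ (b * g) ∈ K ∧
      ∀ l : ℕ, l.Prime → l ∣ g → ∃ q : Polynomial (Subring.center D),
        1 ≤ q.natDegree ∧ q.natDegree ≤ 2 ∧ q ∣ Polynomial.cyclotomic l (Subring.center D)) :
    ∀ x ∈ N, (x : D) ∈ Subring.center D := by
  by_cases hf : B.Finite
  · refine forall_SN.1 (QQP_good (D := D) (∏ b ∈ hf.toFinset.erase 0, b)
      (Finset.prod_pos fun b hb => Nat.pos_of_ne_zero (Finset.ne_of_mem_erase hb)) K hK N hN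
      (forall_SN.2 fun x hx => ?_))
    obtain ⟨b, hb, g, h1, h2, h3⟩ := hrad x hx
    refine ⟨_, ⟨g, Nat.pos_of_mul_pos_left h1, h3, rfl⟩, pow_mem_of_dvd h2
      (mul_dvd_mul_right (Finset.dvd_prod_of_mem _ ?_) g)⟩
    exact Finset.mem_erase.2 ⟨(Nat.pos_of_mul_pos_right h1).ne', hf.mem_toFinset.2 hb⟩
  · have h1 : Cardinal.aleph0 ≤ Cardinal.mk B := Cardinal.aleph0_le_mk_iff.2
      (Set.infinite_coe_iff.2 hf)
    have : Uncountable (Subring.center D) := by
      rw [← Cardinal.aleph0_lt_mk_iff]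
      exact (lt_max_iff.1 (h1.trans_lt hB)).resolve_left (lt_irrefl _)
    refine forall_SN.1 (QQ_of_uncountable K hK N hN (forall_SN.2 fun x hx => ?_))
    obtain ⟨b, -, g, h1, h2, -⟩ := hrad x hx
    exact ⟨_, h1, h2⟩

end Pool.Agent.Work.MP_b4cb8e_al.Parked.Exponents
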