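import Pool.Agent.Work.MP_b4cb8e_al.Good

set_option autoImplicit false

open Pool.Agent.Work.MP_b4cb8e_al

namespace Pool.Agent.Results.MP_b4cb8e_al.PairsFinite

/-- The problem for division rings in which every pair lies in a centrally finite division
subring (weakly locally finite division rings, division rings of type 2). -/
theorem result (D : Type) [DivisionRing D]
    (hloc : ∀ x y : D, ∃ E : Subfield D, x ∈ E ∧ y ∈ E ∧ Module.Finite (Subring.center E) E)
    (K : Subfield D) (hK : K ≠ ⊤) (N : Subgroup Dˣ) (hN : N.IsSubnormal)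
    (hrad : ∀ x ∈ N, ∃ m : ℕ, 1 ≤ m ∧ (x : D) ^ m ∈ K) :
    ∀ x ∈ N, (x : D) ∈ Subring.center D :=
  forall_SN.1 (QQP_of_pairs (P := (1 ≤ ·)) (fun x y => by
    obtain ⟨E, h1, h2, h3⟩ := hloc x y
    exact ⟨E, h1, h2, QQ_of_fd (Subring.center E)⟩) K hK N hN (forall_SN.2 hrad))

end Pool.Agent.Results.MP_b4cb8e_al.PairsFinite
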