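import Pool.Agent.Work.MP_b4cb8e_al.Good

set_option autoImplicit false

open Pool.Agent.Work.MP_b4cb8e_al

namespace Pool.Agent.Work.MP_b4cb8e_al.Parked.Reduction

/-- Local reduction of the problem to Herstein's conjecture. -/
theorem result (D : Type) [DivisionRing D]
    (hloc : ∀ x y : D, ∃ E : Subfield D, x ∈ E ∧ y ∈ E ∧
      (∃ T : Finset E, ∀ z : E, (∀ t ∈ T, t * z = z * t) → z ∈ Subring.center E) ∧
      ∀ M : Subgroup Eˣ, M.IsSubnormal →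
        (∀ u ∈ M, ∃ m : ℕ, 1 ≤ m ∧ (u : E) ^ m ∈ Subring.center E) →
        ∀ u ∈ M, (u : E) ∈ Subring.center E)
    (K : Subfield D) (hK : K ≠ ⊤) (N : Subgroup Dˣ) (hN : N.IsSubnormal)
    (hrad : ∀ x ∈ N, ∃ m : ℕ, 1 ≤ m ∧ (x : D) ^ m ∈ K) :
    ∀ x ∈ N, (x : D) ∈ Subring.center D :=
  forall_SN.1 (QQP_of_local dir_pos (fun x y => by
    obtain ⟨E, h1, h2, h3, h4⟩ := hloc x y
    exact ⟨E, h1, h2, h3, fun M hM hr => forall_SN.2 (h4 M hM (forall_SN.1 hr))⟩) K hK N hN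
      (forall_SN.2 hrad))

end Pool.Agent.Work.MP_b4cb8e_al.Parked.Reduction
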