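import Pool.Agent.Work.MP_b4cb8e_al.Good

set_option autoImplicit false

open Pool.Agent.Work.MP_b4cb8e_al

namespace Pool.Agent.Results.MP_b4cb8e_al.Valued

/-- The problem for division rings with a nontrivial valuation. -/
theorem result (D : Type) [DivisionRing D] (Γ : Type) [LinearOrderedCommGroupWithZero Γ]
    (v : Valuation D Γ) (hv : ∃ t : D, t ≠ 0 ∧ v t ≠ 1)
    (K : Subfield D) (hK : K ≠ ⊤) (N : Subgroup Dˣ) (hN : N.IsSubnormal)
    (hrad : ∀ x ∈ N, ∃ m : ℕ, 1 ≤ m ∧ (x : D) ^ m ∈ K) :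
    ∀ x ∈ N, (x : D) ∈ Subring.center D := by
  obtain ⟨t, ht, ht'⟩ := hv
  exact forall_SN.1 (QQ_of_val v ht ht' K hK N hN (forall_SN.2 hrad))

end Pool.Agent.Results.MP_b4cb8e_al.Valued
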